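import Mathlib
import Pool.Agent.Run7.h756.CC.AllPat

/-!
# Chains of the first kind in several residue classes at once: circles of times

The orbit of `x` under `x ↦ g x + (g - 1)` is `g ^ t (x + 1) - 1`, `t = 0, 1, 2, …`; for `g = 2` it is the
Cunningham chain of the first kind. Let `R` triples `(g_i, q_i, r_i)` be given and let `V` be a finite set of times
`t` for which `g_i ^ t (r_i + 1) - 1` is coprime to `q_i` for all `i` (this is necessary for `g_i ^ t (x + 1) - 1`
to be a large prime, `x ≡ r_i` modulo `q_i`). All members of `V`, with at most `C` exceptions, can be arranged in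
`m R` disjoint circles (`m 1 = 3`, `m 2 = 10`, `m 3 = 36`) such that for each `i` all patterns of primes occur at
the times in any `k` successive members of a circle for starting points `x ≡ r_i` modulo `q_i`. Here `C` depends on
`R` and `k` only, and not on the bases, moduli and classes.
-/

set_option autoImplicit false

namespace Pool.Agent.Results.MP_c77da8_nt.CirclesInClasses

open Filter Finset
open Pool.Agent.Run7.h756.CC

open Classical in
/-- the number of the `1 ≤ n ≤ N` such that for each of the `l` starting points `x = r + q (n + j D)`, `j < l`,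
(all of them are `≡ r` modulo `q`) the number `g ^ t (x + 1) - 1` is prime for the times `t` in `A` and not
prime for the times `t` in `B` -/
noncomputable def progressions (g q r : ℕ) (A B : Finset ℕ) (l D N : ℕ) : ℕ :=
  ((Icc 1 N).filter (fun n : ℕ => ∀ j < l, (∀ t ∈ A, (g ^ t * (r + q * (n + j * D) + 1) - 1).Prime) ∧
    ∀ t ∈ B, ¬ (g ^ t * (r + q * (n + j * D) + 1) - 1).Prime)).card

/-- All patterns at the times in `F`, along narrow progressions of starting points in the class of `r` modulo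
`q`: there is a subset `T` of `V` with at most `J` members which contains `F` such that for every finite set `U` of
times disjoint from `T` with `g ^ t (r + 1) - 1` coprime to `q` for `t ∈ U`, and every length `l`, there is `C`
such that for arbitrarily large `N` and EVERY subset `A` of `F` there is a difference `1 ≤ D ≤ (log N) ^ C` for
which at least `N / (log N) ^ C` progressions of length `l` have primes at the times in `A` and no primes at the
times in `F \ A` and in `U`. -/
def AllPatterns (g q r J : ℕ) (V F : Finset ℕ) : Prop := ∃ T ⊆ V, F ⊆ T ∧ T.card ≤ J ∧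
  ∀ U : Finset ℕ, Disjoint U T → (∀ t ∈ U, Nat.Coprime (g ^ t * (r + 1) - 1) q) → ∀ l : ℕ, ∃ C : ℕ,
    ∃ᶠ N : ℕ in atTop, ∀ A ⊆ F, ∃ D : ℕ, 1 ≤ D ∧ (D : ℝ) ≤ Real.log N ^ C ∧
      (N : ℝ) / Real.log N ^ C ≤ (progressions g q r A ((F \ A) ∪ U) l D N : ℝ)

/-- `m 0 = 1` and `m (R + 1) = ⌊18 * m R / 5⌋`: the numbers `1, 3, 10, 36, 129, ...` -/
def m : ℕ → ℕ
  | 0 => 1
  | R + 1 => 18 * m R / 5

theorem m_eq (R : ℕ) : m R = Pool.Agent.R493.SI.mR R := by
  induction R with
  | zero => rfl
  | succ R ih =>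
    show 18 * m R / 5 = 18 * Pool.Agent.R493.SI.mR R / 5
    rw [ih]

/-- All members of `V` with at most `C` exceptions are arranged in `D` disjoint circles (lists without
repetitions, read cyclically) such that any `k` successive members of a circle (all members, if there are fewer
than `k`) form a set with the property `G`. -/
def Circles (V : Finset ℕ) (D C k : ℕ) (G : Finset ℕ → Prop) : Prop :=
  ∃ e : Fin D → List ℕ, (∀ i, (e i).Nodup) ∧ (∀ i j, i ≠ j → List.Disjoint (e i) (e j)) ∧
    (∀ i, ∀ v ∈ e i, v ∈ V) ∧ (V.filter (fun v => ∀ i, v ∉ e i)).card ≤ C ∧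
    ∀ i j, e i ≠ [] → G ((((e i).rotate j).take k).toFinset)

/-- the form of the time `t` -/
def fm (g q r t : ℕ) : ℤ × ℤ := ((g : ℤ) ^ t * q, (g : ℤ) ^ t * (r + 1) - 1)

theorem fm_inj {g q r : ℕ} (hg : 2 ≤ g) (hq : 1 ≤ q) : Function.Injective (fm g q r) := by
  intro s t hst
  simp only [fm, Prod.mk.injEq] at hst
  have h1 : (g : ℤ) ^ s = (g : ℤ) ^ t := by
    have hq' : (q : ℤ) ≠ 0 := by positivity
    exact mul_right_cancel₀ hq' hst.1
  have h2 : g ^ s = g ^ t := by exact_mod_cast h1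
  exact Nat.pow_right_injective hg h2

theorem cast_form {g r t : ℕ} (hg : 2 ≤ g) : ((g ^ t * (r + 1) - 1 : ℕ) : ℤ) = (g : ℤ) ^ t * (r + 1) - 1 := by
  have h1 : 1 ≤ g ^ t * (r + 1) := Nat.one_le_iff_ne_zero.2 (by positivity)
  push_cast [Nat.cast_sub h1]
  ring

theorem fm_coprime {g q r t : ℕ} (hg : 2 ≤ g) (h : Nat.Coprime (g ^ t * (r + 1) - 1) q) :
    IsCoprime (fm g q r t).1 (fm g q r t).2 := by
  show IsCoprime ((g : ℤ) ^ t * q) ((g : ℤ) ^ t * (r + 1) - 1)
  refine IsCoprime.mul_left ?_ ?_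
  · exact ⟨(r : ℤ) + 1, -1, by ring⟩
  · rw [← cast_form hg]
    exact (Nat.isCoprime_iff_coprime.2 h).symm

theorem fm_val {g q r t : ℕ} (hg : 2 ≤ g) (n : ℕ) :
    ((fm g q r t).1 * (n : ℤ) + (fm g q r t).2).toNat = g ^ t * (r + q * n + 1) - 1 := by
  have h1 : (fm g q r t).1 * (n : ℤ) + (fm g q r t).2 = ((g ^ t * (r + q * n + 1) - 1 : ℕ) : ℤ) := by
    have h2 := cast_form (r := r + q * n) (t := t) hg
    rw [h2]
    simp only [fm]
    push_cast
    ring
  rw [h1]
  simp

theorem allPatterns_of_pats {g q r : ℕ} (hg : 2 ≤ g) (hq : 1 ≤ q) {J : ℕ} {V F : Finset ℕ}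
    (h : PatsJ J (V.image (fm g q r)) (F.image (fm g q r))) : AllPatterns g q r J V F := by
  classical
  have hinj := fm_inj (r := r) hg hq
  have hpos : ∀ t, 0 < (fm g q r t).1 := fun t => by
    show 0 < (g : ℤ) ^ t * q
    positivity
  obtain ⟨T', hTV, hFT, hTJ, h⟩ := h
  refine ⟨V.filter (fun t => fm g q r t ∈ T'), filter_subset _ _, ?_, ?_, ?_⟩
  · intro t ht
    have h1 := hFT (mem_image_of_mem _ ht)
    obtain ⟨s, hs, hst⟩ := mem_image.1 (hTV h1)
    rw [hinj hst] at hs
    exact mem_filter.2 ⟨hs, h1⟩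
  · refine le_trans ?_ hTJ
    refine Finset.card_le_card_of_injOn (fm g q r) (fun t ht => ?_) hinj.injOn
    rw [mem_coe, mem_filter] at ht
    exact ht.2
  intro U hU hUq l
  obtain ⟨C, hC⟩ := h (U.image (fm g q r)) (by
    intro u hu
    obtain ⟨t, ht, rfl⟩ := mem_image.1 hu
    refine ⟨hpos t, fm_coprime hg (hUq t ht), fun h1 => ?_⟩
    obtain ⟨s, hs, hst⟩ := mem_image.1 (hTV h1)
    rw [hinj hst] at hs
    exact disjoint_left.1 hU ht (mem_filter.2 ⟨hs, h1⟩)) l
  refine ⟨C, hC.mono fun N hN A hA => ?_⟩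
  obtain ⟨D, hD1, hD2, hD3⟩ := hN (A.image (fm g q r)) (image_subset_image hA)
  refine ⟨D, hD1, hD2, hD3.trans ?_⟩
  rw [Nat.cast_le]
  unfold Pool.Agent.Y827.HN.cntX progressions
  refine card_le_card ?_
  intro n hn
  obtain ⟨hn1, hn2⟩ := mem_filter.1 hn
  obtain ⟨hn3, hn4⟩ := mem_Icc.1 hn1
  refine mem_filter.2 ⟨mem_Icc.2 ⟨by omega, hn4⟩, fun j hj => ?_⟩
  obtain ⟨h1, h2⟩ := hn2 j hj
  refine ⟨fun t ht => ?_, fun t ht => ?_⟩
  · have h3 := h1 _ (mem_image_of_mem _ ht)
    rwa [fm_val hg] at h3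
  · have h3 := h2 (fm g q r t) (by
      rcases mem_union.1 ht with ht | ht
      · obtain ⟨h3, h4⟩ := mem_sdiff.1 ht
        refine mem_union_left _ (mem_sdiff.2 ⟨mem_image_of_mem _ h3, fun h => ?_⟩)
        obtain ⟨s, hs, hst⟩ := mem_image.1 h
        rw [hinj hst] at hs
        exact h4 hs
      · exact mem_union_right _ (mem_image_of_mem _ ht))
    rwa [fm_val hg] at h3

/-- **Chains of the first kind in `R` residue classes at once** (`g i = 2` for the Cunningham chains). -/
theorem result (R k : ℕ) (hk : 1 ≤ k) : ∃ C B : ℕ,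
    ∀ g q r : Fin R → ℕ, (∀ i, 2 ≤ g i ∧ 1 ≤ q i) → ∀ V : Finset ℕ,
      (∀ i, ∀ t ∈ V, Nat.Coprime (g i ^ t * (r i + 1) - 1) (q i)) →
      Circles V (m R) C k (fun w => ∀ i, AllPatterns (g i) (q i) (r i) B V w) := by
  classical
  obtain ⟨C, B, h⟩ := pat_circles R k hk
  refine ⟨C, B, fun g q r hgq V hV => ?_⟩
  rw [m_eq]
  obtain ⟨e, he1, he2, he3, he4, he5⟩ := h V (fun i t => fm (g i) (q i) (r i) t)
    (fun i => (fm_inj (hgq i).1 (hgq i).2).injOn)
    (fun i t ht => ⟨by
      have h1 := (hgq i).1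
      have h2 := (hgq i).2
      show 0 < (g i : ℤ) ^ t * q i
      positivity, fm_coprime (hgq i).1 (hV i t ht)⟩)
    (fun i p hp hpB => by
      by_cases hpq : (p : ℤ) ∣ q i
      · refine ⟨0, fun t ht hd => ?_⟩
        have h1 := fm_coprime (hgq i).1 (hV i t ht)
        have h2 : (p : ℤ) ∣ (fm (g i) (q i) (r i) t).2 := by simpa using hd
        have h3 : (p : ℤ) ∣ (fm (g i) (q i) (r i) t).1 := hpq.mul_left _
        have h4 := h1.isUnit_of_dvd' h3 h2
        exact (Nat.prime_iff_prime_int.1 hp).not_isUnit h4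
      · have hcop : IsCoprime (q i : ℤ) (p : ℤ) := by
          rw [isCoprime_comm]
          exact (Prime.coprime_iff_not_dvd (Nat.prime_iff_prime_int.1 hp)).2 hpq
        obtain ⟨u, v, huv⟩ := hcop
        refine ⟨-(u * (r i + 1)), fun t ht hd => ?_⟩
        have h1 : (p : ℤ) ∣ -1 := by
          have e1 : (fm (g i) (q i) (r i) t).1 * -(u * (r i + 1)) + (fm (g i) (q i) (r i) t).2 =
              (g i : ℤ) ^ t * (r i + 1) * (1 - u * q i) - 1 := by
            simp only [fm]
            ring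
          have e2 : (1 : ℤ) - u * q i = v * p := by linear_combination -huv
          rw [e1, e2] at hd
          have e3 : (p : ℤ) ∣ (g i : ℤ) ^ t * (r i + 1) * (v * p) := ⟨(g i : ℤ) ^ t * (r i + 1) * v, by ring⟩
          have e4 := (dvd_sub_right e3).1 hd
          exact (dvd_neg).2 e4
        have h2 : (p : ℤ) ∣ 1 := (dvd_neg).1 h1
        exact (Nat.prime_iff_prime_int.1 hp).not_isUnit (isUnit_of_dvd_one h2))
  exact ⟨e, he1, he2, he3, he4, fun j l hne i => allPatterns_of_pats (hgq i).1 (hgq i).2 (he5 i j l hne)⟩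

end Pool.Agent.Results.MP_c77da8_nt.CirclesInClasses
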