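import Pool.Agent.Run7.h962.AP.A8

/-!
# Cunningham chains of the first kind: the sharp limit of all nonnegative sieve weights

The primes in a Cunningham chain of the first kind which starts at `n` are the values of the linear forms
`2^t (n + 1) - 1`.  The method of Goldston, Pintz and Yıldırım in the form of Maynard and Tao gives many primes among them:
one takes a nonnegative weight `w(n)` of level `Q` (a square of a divisor sum) for which the expected number of primes among
the values, with respect to `w`, is large.  If the primes have the level of distribution `θ`, the weights of Maynard and Tao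
give `(θ/2 + o(1)) log k` primes among `k` values.  A chain of length `k` needs all of them.  Could other nonnegative weights
(not squares, with an arbitrary dependence on the residue classes, adapted to the special position of these forms: the
residue classes `-1 + 2^(-t)` modulo `p` form a part of a geometric progression) give more?  We prove that they cannot, and
that the number of the values without small prime factors has a Poisson tail with respect to every such weight.  For
ANY weight `w ≥ 0` of level `Q`, that is, a sum of arbitrary functions with periods `d ≤ Q`, and ANY `k` times `t ∈ T`,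
`2^t ≤ Q^B` (so that the times may lie in an interval of length `B log Q / log 2`), let `X(n)` be the number of the
`2^t (n + 1) - 1`, `t ∈ T`, without prime factors `≤ Q`, `M` the mean over the period `Q!` and
`L = (e^(-γ)/2 + ε) log k + C(ε)`.

(1) `M(w binom(X, r)) ≤ L^r / r! · M(w)` for all `r`.

(2) `∏_{p ≤ Q} (1 - 1/p)^(-r) M(w binom(X, r)) ≤ (((1/2 + ε) log k + C) log Q)^r / r! · M(w)` for all `r`; the left side is
the sum over the `R ⊆ T` with `r` elements of the expected main terms (Hardy and Littlewood, primes `≤ Q`) of the mean values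
of `w(n) ∏_{t ∈ R} Λ(2^t (n + 1) - 1)`.

(3) `M(w 1[X ≥ m]) ≤ e^(m - L) (L/m)^m M(w)` for all integers `m ≥ L`; for `m = k`, the case of the complete chains, the
factor is at most `(O_ε(log k) / k)^k`.

(4) for the primes themselves, unconditionally: for `0 < δ < 1/2` and times with `2^t ≤ (log N)^B`, every weight `w ≥ 0` of
level `N^δ` for which `∑_d (∑_a |c_d(a)|)^2 / φ(d)` is at most a fixed power of `log N` times the square of the mean of `w` (as
for the weights of Maynard and Tao) satisfies
`∑_{n < N} w(n) #{t ∈ T : 2^t (n + 1) - 1 prime} ≤ ((δ/2 + ε) log k + C(ε)) ∑_{n < N} w(n)` (theorem of Bombieri and Vinogradov,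
`Pool/Agent/Run7/h962/AP`).

In particular no nonnegative weight of level `Q ≤ N`, with starting points `n ≤ N`, detects a chain of length `k` for large
`k`, even if the primes have the level of distribution `1`: the expected number of primes is at most `(1/2 + ε) log k + C`.

The proof: a prime which divides no number `2^t` and no determinant `2^s - 2^t` divides at most one of the values; all but few
of the primes `≤ Q` are of this kind (this needs that the times are `O(log Q)`, not more), and the forms are reduced to the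
model of the proof for shifts (MP_8923e7_nt, `SharpLimitOfNonnegativeWeights`: inequality `PSs`, by helpers 962, 816, 249,
420, 571, 956, 697, 743, 97, 245, 372 and 91, with starting files of helper422).
-/

set_option autoImplicit false

open Finset

namespace Pool.Agent.Results.MP_c77da8_nt.SharpLimitOfNonnegativeWeights

/-- the weight `w(n) = ∑_{d ≤ Q} c_d(n mod d)`, an arbitrary real weight of level `Q` -/
noncomputable def weight (Q : ℕ) (c : ℕ → ℕ → ℝ) (n : ℕ) : ℝ := ∑ d ∈ Icc 1 Q, c d (n % d)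

/-- the mean value of `F` over the period `Q!` -/
noncomputable def mean (Q : ℕ) (F : ℕ → ℝ) : ℝ := (∑ n ∈ range Q.factorial, F n) / (Q.factorial : ℝ)

/-- the term of index `t` of the sequence `x ↦ 2 x + 1` which starts at `n` -/
def chain (t n : ℕ) : ℕ := 2 ^ t * (n + 1) - 1

/-- the number of the `t ∈ T` for which the term of index `t` has no prime factor `p ≤ Q` -/
def free (Q : ℕ) (T : Finset ℕ) (n : ℕ) : ℕ := (T.filter (fun t : ℕ => ∀ p ∈ Icc (1 : ℕ) Q, Nat.Prime p → ¬ p ∣ chain t n)).card

/-- the product `∏_{p ≤ Q} (1 - 1/p)^(-1)`, asymptotically equal to `e^γ log Q` -/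
noncomputable def euler (Q : ℕ) : ℝ := (∏ p ∈ (Icc 1 Q).filter Nat.Prime, (1 - 1 / (p : ℝ)))⁻¹

/-- the function `chain` is the iteration of `x ↦ 2 x + 1` -/
theorem chain_eq (t n : ℕ) : chain t n = (fun x => 2 * x + 1)^[t] n := by
  induction t with
  | zero => simp [chain]
  | succ t ih =>
    rw [Function.iterate_succ_apply', ← ih]
    unfold chain
    have : 1 ≤ 2 ^ t * (n + 1) := Nat.mul_pos (by positivity) (by omega)
    have e : 2 ^ (t + 1) * (n + 1) = 2 * (2 ^ t * (n + 1)) := by ring
    rw [e]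
    omega

/-- For every `ε > 0` there is `C > 0` such that the following holds for all `k ≥ 1`, all real `B` and all `Q ≥ Q₀(ε, k, B)`.
Let `T` be a set of `k` natural numbers with `2^t ≤ Q^B` for `t ∈ T`, let `w ≥ 0` be a weight of level `Q`, let `X(n)` be the
number of the `2^t (n + 1) - 1`, `t ∈ T`, without prime factors `≤ Q`, let `M` be the mean over the period `Q!` and
`L = (e^(-γ)/2 + ε) log k + C`.

(1) For all `r`, `M(w binom(X, r)) ≤ L^r / r! · M(w)`.

(2) For all `r`, `∏_{p ≤ Q} (1 - 1/p)^(-r) M(w binom(X, r)) ≤ (((1/2 + ε) log k + C) log Q)^r / r! · M(w)`.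

(3) For all integers `m ≥ L`, `M(w 1[X ≥ m]) ≤ e^(m - L) (L/m)^m M(w)`.

(4) Let `0 < δ < 1/2`, `A, B ≥ 0` and `N ≥ N₀(ε, k, δ, A, B)`, let `T` be a set of `k` natural numbers `t` with `2^t ≤ (log N)^B`, and let `w ≥ 0` be a
weight of level `⌊N^δ⌋` with `∑_d (∑_a |c_d(a)|)^2 / φ(d) ≤ (log N)^A ((1/N) ∑_{n < N} w(n))^2`.  Then
`∑_{n < N} w(n) #{t ∈ T : 2^t (n + 1) - 1 prime} ≤ ((δ/2 + ε) log k + C) ∑_{n < N} w(n)`. -/
theorem result : ∀ ε : ℝ, 0 < ε → ∃ C : ℝ, 0 < C ∧
    (∀ (k : ℕ) (B : ℝ), 1 ≤ k → ∃ Q₀ : ℕ, ∀ Q : ℕ, Q₀ ≤ Q →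
    ∀ T : Finset ℕ, T.card = k → (∀ t ∈ T, (2 : ℝ) ^ t ≤ (Q : ℝ) ^ B) → ∀ c : ℕ → ℕ → ℝ, (∀ n, 0 ≤ weight Q c n) →
    ∀ L : ℝ, L = (Real.exp (-Real.eulerMascheroniConstant) / 2 + ε) * Real.log k + C →
      (∀ r : ℕ, mean Q (fun n => weight Q c n * ((free Q T n).choose r : ℝ)) ≤
        L ^ r / (r.factorial : ℝ) * mean Q (weight Q c)) ∧
      (∀ r : ℕ, euler Q ^ r * mean Q (fun n => weight Q c n * ((free Q T n).choose r : ℝ)) ≤
        (((1 / 2 + ε) * Real.log k + C) * Real.log Q) ^ r / (r.factorial : ℝ) * mean Q (weight Q c)) ∧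
      (∀ m : ℕ, L ≤ m → mean Q (fun n => if m ≤ free Q T n then weight Q c n else 0) ≤
        Real.exp (m - L) * (L / m) ^ m * mean Q (weight Q c))) ∧
    (∀ (k : ℕ) (δ : ℝ) (A B : ℕ), 1 ≤ k → 0 < δ → δ < 1 / 2 → ∃ N₀ : ℕ, ∀ N : ℕ, N₀ ≤ N →
      ∀ T : Finset ℕ, T.card = k → (∀ t ∈ T, (2 : ℝ) ^ t ≤ Real.log N ^ B) →
      ∀ c : ℕ → ℕ → ℝ, (∀ n, 0 ≤ weight ⌊(N : ℝ) ^ δ⌋₊ c n) →
        ∑ d ∈ Icc 1 ⌊(N : ℝ) ^ δ⌋₊, (∑ a ∈ range d, |c d a|) ^ 2 / (Nat.totient d : ℝ) ≤
          Real.log N ^ A * ((∑ n ∈ range N, weight ⌊(N : ℝ) ^ δ⌋₊ c n) / N) ^ 2 →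
        ∑ n ∈ range N, weight ⌊(N : ℝ) ^ δ⌋₊ c n * ((T.filter (fun t => (chain t n).Prime)).card : ℝ) ≤
          ((δ / 2 + ε) * Real.log k + C) * ∑ n ∈ range N, weight ⌊(N : ℝ) ^ δ⌋₊ c n) := by
  intro ε hε
  obtain ⟨C, hC, h1, hP⟩ := Pool.Agent.Run7.h962.AP.poi_both ε hε
  refine ⟨C, hC, fun k B hk => ?_, fun k δ A B hk hδ0 hδ => ?_⟩
  swap
  · obtain ⟨N₀, hs, hP⟩ := hP k δ A B hk hδ0 hδ
    refine ⟨N₀, fun N hN T hT hTB c hc hcn => ?_⟩
    have hpow : ∀ t : ℕ, 1 ≤ 2 ^ t := fun t => Nat.one_le_two_pow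
    have h2 := hP N hN T (fun t => 2 ^ t) (fun t => 2 ^ t - 1) hT (fun t _ => hpow t)
      (fun t ht => by push_cast; exact hTB t ht)
      (fun t ht => by
        have h3 : (((2 ^ t - 1 : ℕ) : ℕ) : ℝ) ≤ ((2 ^ t : ℕ) : ℝ) := by exact_mod_cast Nat.sub_le _ _
        refine h3.trans ?_
        push_cast
        exact (hTB t ht).trans (hs N hN).1)
      (fun t _ => by
        obtain ⟨u, hu⟩ : ∃ u, 2 ^ t = u + 1 := ⟨2 ^ t - 1, by have := hpow t; omega⟩
        rw [hu, Nat.add_sub_cancel]
        simp)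
      (fun s _ t _ hst h => by
        apply hst
        obtain ⟨u, hu⟩ : ∃ u, 2 ^ t = u + 1 := ⟨2 ^ t - 1, by have := hpow t; omega⟩
        obtain ⟨v, hv⟩ : ∃ v, 2 ^ s = v + 1 := ⟨2 ^ s - 1, by have := hpow s; omega⟩
        have h4 : (v + 1) * u = (u + 1) * v := by
          have h5 : 2 ^ s * (2 ^ t - 1) = 2 ^ t * (2 ^ s - 1) := h
          rw [hu, hv, Nat.add_sub_cancel, Nat.add_sub_cancel] at h5
          exact h5
        have h6 : u = v := by nlinarith
        apply Nat.pow_right_injective (le_refl 2)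
        change 2 ^ s = 2 ^ t
        rw [hu, hv, h6]) c hc hcn
    have e : ∀ n, T.filter (fun t => (chain t n).Prime) = T.filter (fun t => (2 ^ t * n + (2 ^ t - 1)).Prime) := by
      intro n
      apply Finset.filter_congr
      intro t _
      have h3 : chain t n = 2 ^ t * n + (2 ^ t - 1) := by
        unfold chain
        have := hpow t
        rw [Nat.mul_add, mul_one]
        omega
      rw [h3]
    simp only [e]
    exact h2
  obtain ⟨Q₀, h1⟩ := h1 k B hk
  refine ⟨Q₀, fun Q hQ T hT hTB c hc L hL => ?_⟩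
  have hch : ∀ t n : ℕ, ((chain t n : ℕ) : ℤ) = 2 ^ t * n + (2 ^ t - 1) := by
    intro t n
    unfold chain
    have : 1 ≤ 2 ^ t * (n + 1) := Nat.mul_pos (by positivity) (by omega)
    rw [Nat.cast_sub this]
    push_cast
    ring
  have h2 := h1 Q hQ T (fun t => 2 ^ t) (fun t => 2 ^ t - 1) hT (fun t _ => by positivity)
    (fun s _ t _ hst h => by
      apply hst
      have h3 : (2 : ℤ) ^ s = 2 ^ t := by linarith
      exact Int.pow_right_injective (by norm_num) h3)
    (fun t ht => by
      push_cast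
      rw [abs_of_pos (by positivity)]
      exact hTB t ht)
    (fun t ht => by
      push_cast
      have h3 : (1 : ℝ) ≤ 2 ^ t := one_le_pow₀ (by norm_num)
      rw [abs_of_nonneg (by linarith)]
      linarith [hTB t ht]) c hc L hL
  have e1 : ∀ n, free Q T n = Pool.Agent.Run7.h962.AP.frF Q T (fun t => 2 ^ t) (fun t => 2 ^ t - 1) n := by
    intro n
    unfold free Pool.Agent.Run7.h962.AP.frF
    congr 1
    apply Finset.filter_congr
    intro t _
    rw [← hch t n]
    simp only [Int.natCast_dvd_natCast]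
  simp only [e1]
  exact h2

end Pool.Agent.Results.MP_c77da8_nt.SharpLimitOfNonnegativeWeights
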