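import Mathlib
import Pool.Agent.Run7.h189.CO.Her

/-!
# Every infinite set of times contains a universal hereditary one

Let `S x = a x + b` with integers `a ≥ 2` and `b` prime to `a` (`a = 2`, `b = 1`: Cunningham chains of the first kind
are runs of primes in the orbits of `S`). Say that a nonempty set `A` of natural numbers is an exact set of times for
`S` if for every `s ∈ A` and every `R` there are infinitely many primes `p` such that for all `y ≤ R` the `y`-th
iterate `S^y(p)` is prime if and only if `s + y ∈ A`; for `A = {0, 1, …, k}` this is the question (and a composite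
value follows).

(1) Every infinite set `V` of natural numbers contains an infinite set `B` such that for EVERY affine map `S` ALL
nonempty (finite or infinite) subsets of `B`, apart from an initial segment of `B` which depends on `S` only, are
exact sets of times for `S`.

(2) More generally, for any sequence `φ_0, φ_1, …` of injective maps of the natural numbers into themselves there is
one increasing sequence `e_0 < e_1 < …` such that for every affine map `S` and every `l` there is `N` such that all
the sets `{φ_l(e_i) : i ∈ I}`, `I` a nonempty set of indices `≥ N`, are exact sets of times for `S`. (For instance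
`φ_l(i) = (l + 1) i`, or `i + l`, `i ^ (l + 1)`: the sets `B`, `2 B`, `3 B`, …, `{x ^ 2 : x ∈ B}`, … at once.)

The infinite exact pattern theorem for linear forms (`Pool.Agent.H361R2.Inf`) and its hereditary form by Ellentuck's
theorem (`Pool.Agent.W68.Her`) are from the starting files.
-/

set_option autoImplicit false

namespace Pool.Agent.Results.MP_c77da8_nt.UniversalHereditaryTimes

/-- the `j`-th iterate of `x ↦ a x + b` at `x` -/
def S (a b : ℤ) (j : ℕ) (x : ℤ) : ℤ := (fun y : ℤ => a * y + b)^[j] x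

/-- `A` is an exact set of times for `x ↦ a x + b`: for every `s ∈ A` and every `R` there are infinitely many primes
`p` such that for all `y ≤ R` the number `S^y(p)` is prime if and only if `s + y ∈ A` -/
def ExactTimes (a b : ℤ) (A : Set ℕ) : Prop :=
  ∀ s ∈ A, ∀ R : ℕ, {p : ℕ | p.Prime ∧ ∀ y ≤ R, (S a b y p).toNat.Prime ↔ s + y ∈ A}.Infinite

theorem It_eq (a b : ℤ) (j : ℕ) (x : ℤ) : Run7.h189.CO.It a b j x = S a b j x := by
  induction j with
  | zero => exact Run7.h189.CO.It_zero a b x
  | succ j ih =>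
    rw [Run7.h189.CO.It_succ, ih]
    unfold S
    rw [Function.iterate_succ_apply']

theorem part_two (φ : ℕ → ℕ → ℕ) (hφ : ∀ l, Function.Injective (φ l)) :
    ∃ e : ℕ → ℕ, StrictMono e ∧ ∀ a b : ℤ, 2 ≤ a → IsCoprime a b → ∀ l : ℕ, ∃ N : ℕ, ∀ I : Set ℕ,
      (∀ i ∈ I, N ≤ i) → ExactTimes a b ((fun i => φ l (e i)) '' I) := by
  obtain ⟨e, he, h⟩ := Run7.h189.CO.universal φ hφ
  refine ⟨e, he, fun a b ha hab l => ?_⟩
  obtain ⟨N, hN⟩ := h a b ha hab l
  refine ⟨N, fun I hI => ?_⟩
  rintro _ ⟨i₀, hi₀, rfl⟩ R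
  have h1 := hN I hI i₀ hi₀ R
  simp only [It_eq] at h1
  exact h1

theorem result :
    (∀ V : Set ℕ, V.Infinite → ∃ B ⊆ V, B.Infinite ∧ ∀ a b : ℤ, 2 ≤ a → IsCoprime a b →
      ∃ N : ℕ, ∀ A ⊆ B, (∀ x ∈ A, N ≤ x) → ExactTimes a b A) ∧
    ∀ φ : ℕ → ℕ → ℕ, (∀ l, Function.Injective (φ l)) → ∃ e : ℕ → ℕ, StrictMono e ∧
      ∀ a b : ℤ, 2 ≤ a → IsCoprime a b → ∀ l : ℕ, ∃ N : ℕ, ∀ I : Set ℕ,
        (∀ i ∈ I, N ≤ i) → ExactTimes a b ((fun i => φ l (e i)) '' I) := by
  refine ⟨fun V hV => ?_, part_two⟩
  have hVs : (Set.ofPred (· ∈ V)).Infinite := hV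
  set v : ℕ → ℕ := Nat.nth (· ∈ V) with hv
  have hvm : StrictMono v := Nat.nth_strictMono hVs
  obtain ⟨e, he, h⟩ := part_two (fun _ => v) (fun _ => hvm.injective)
  refine ⟨Set.range (fun i => v (e i)), ?_, Set.infinite_range_of_injective (hvm.comp he).injective,
    fun a b ha hab => ?_⟩
  · rintro _ ⟨i, rfl⟩
    exact Nat.nth_mem_of_infinite hVs _
  · obtain ⟨N, hN⟩ := h a b ha hab 0
    refine ⟨v (e N), fun A hA hAN => ?_⟩
    have h1 : A = (fun i => v (e i)) '' {i | v (e i) ∈ A} := by
      ext x
      constructor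
      · intro hx
        obtain ⟨i, rfl⟩ := hA hx
        exact ⟨i, hx, rfl⟩
      · rintro ⟨i, hi, rfl⟩
        exact hi
    rw [h1]
    refine hN _ fun i hi => ?_
    exact (hvm.comp he).le_iff_le.1 (hAN _ hi)

end Pool.Agent.Results.MP_c77da8_nt.UniversalHereditaryTimes
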